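import Pool.Agent.Run7.h595.CM.Base
import Pool.Agent.TH545.SD.Dh
import Pool.Agent.Run7.h866.NU.Close

/-! Composition: general points. -/

set_option autoImplicit false

namespace Pool.Agent.Run7.h595.CM

open Finset Pool.Agent.TH176.Nag Pool.Agent.TH603.Sur Pool.Agent.TH641.UM Pool.Agent.TH2.NU
open Pool.Agent.H932R3 (ExpDim)

/-- expected dimension for the points of a nonempty open set, one degree -/
def Op (K : Type) [Field K] (d : ℕ) {n : ℕ} (w : Fin n → ℕ) : Prop :=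
  ∃ F : MvPolynomial (Fin n × Fin 2) K, F ≠ 0 ∧ ∀ (P : Fin n → Fin 2 → K),
    MvPolynomial.eval (fun ij : Fin n × Fin 2 => P ij.1 ij.2) F ≠ 0 → ExpDim K w P d

/-- the same, all degrees at once -/
def OpAll (K : Type) [Field K] {n : ℕ} (w : Fin n → ℕ) : Prop :=
  ∃ F : MvPolynomial (Fin n × Fin 2) K, F ≠ 0 ∧ ∀ (P : Fin n → Fin 2 → K),
    MvPolynomial.eval (fun ij : Fin n × Fin 2 => P ij.1 ij.2) F ≠ 0 → ∀ d : ℕ, ExpDim K w P d

/-- the multiset of the multiplicities -/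
def mu {n : ℕ} (w : Fin n → ℕ) : Multiset ℕ := Multiset.map w Finset.univ.val

theorem mu_eq {n : ℕ} (w : Fin n → ℕ) : mu w = ms w := Pool.Agent.TH545.SD.ms_map w

theorem NS_of_Op {K : Type} [Field K] [CharZero K] {n : ℕ} {w : Fin n → ℕ} {d : ℕ}
    (h : Op K d w) : NS d (ms w) :=
  NS_of_fam (Pool.Agent.TH545.SD.GD_of_open h w rfl)

theorem Op_of_NS {K : Type} [Field K] [CharZero K] {n : ℕ} {w : Fin n → ℕ} {d : ℕ}
    (h : NS d (ms w)) : Op K d w := by
  obtain ⟨F, hF, hF'⟩ := h.expDim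
  refine ⟨F.map (algebraMap ℚ K), Pool.Agent.H932R3.map_ne_zero_of hF, fun P hP => ?_⟩
  rw [MvPolynomial.eval_map] at hP
  exact hF' P hP

theorem OpAll_of_NS {K : Type} [Field K] [CharZero K] {n : ℕ} {w : Fin n → ℕ}
    (h : ∀ d, NS d (ms w)) : OpAll K w := by
  obtain ⟨F, hF, hF'⟩ := expDim_all h
  refine ⟨F.map (algebraMap ℚ K), Pool.Agent.H932R3.map_ne_zero_of hF, fun P hP => ?_⟩
  rw [MvPolynomial.eval_map] at hP
  exact hF' P hP

/-- the system is non-special, multisets -/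
def SM (K : Type) [Field K] (d : ℕ) (v : Multiset ℕ) : Prop :=
  ∀ (n : ℕ) (w : Fin n → ℕ), mu w = v → Op K d w

/-- the system is non-special in all degrees, multisets -/
def SMAll (K : Type) [Field K] (v : Multiset ℕ) : Prop :=
  ∀ (n : ℕ) (w : Fin n → ℕ), mu w = v → OpAll K w

theorem SM_iff {K : Type} [Field K] [CharZero K] {d : ℕ} {v : Multiset ℕ} :
    SM K d v ↔ NS d v := by
  constructor
  · intro h
    obtain ⟨s, u, hu⟩ := Pool.Agent.TH545.SD.exists_fam v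
    have h1 := NS_of_Op (h s u (by rw [mu_eq, hu]))
    rwa [hu] at h1
  · intro h n w hw
    rw [mu_eq] at hw
    rw [← hw] at h
    exact Op_of_NS h

theorem SMAll_of {K : Type} [Field K] [CharZero K] {v : Multiset ℕ} (h : ∀ d, NS d v) :
    SMAll K v := by
  intro n w hw
  rw [mu_eq] at hw
  rw [← hw] at h
  exact OpAll_of_NS h

theorem NS_uniform {d n m : ℕ} (hm : 1 ≤ m) (hn : n = 1 ∨ n = 21 ∨ 37 ≤ n ∨ Num n) :
    NS d (Multiset.replicate n m) := by
  rw [← Multiset.nsmul_singleton]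
  have key : ∀ {v : Multiset ℕ}, Pool.Agent.TH545.SD.GD d v → NS d v := by
    intro v h
    obtain ⟨s, u, rfl⟩ := Pool.Agent.TH545.SD.exists_fam v
    exact NS_of_fam (h u rfl)
  rcases hn with rfl | rfl | hn | hn
  · rw [one_smul]
    exact key (Pool.Agent.TH545.SD.GD.point d m)
  · exact key (Pool.Agent.TH545.SD.GD.uniform hm (Or.inr (Or.inr rfl)))
  · exact key (Pool.Agent.TH545.SD.GD.uniform hm (Or.inl hn))
  · rw [← ms_fin]
    exact NS_near hn hm fun _ => Or.inl rfl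

/-- `0, 5, 2, 3` for `n ≡ 0, 1, 2, 3` modulo four -/
def spare (n : ℕ) : ℕ := if n % 4 = 1 then 5 else n % 4

theorem cc_eq (n : ℕ) : Pool.Agent.Run7.h866.NU.cc n = spare n := by
  rfl

/-- `B` of `n` equal points are replaced -/
theorem near_uniform_base {n B m d : ℕ} (hn : 37 ≤ n) (hB : B ≤ n) (hm : n + 6 ≤ 2 * m)
    (v : Fin B → Multiset ℕ) (hv : ∀ i, Crit m (v i))
    (hc : (B : ℝ) + (spare n : ℝ) / 2 + 9 / 8 < 7 * √(n : ℝ) / 6 ∨
      (B : ℝ) + spare n + 2 * √(n : ℝ) / 3 + 23 / 8 ≤ (n : ℝ) / 4) :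
    NS d (∑ i, v i + Multiset.replicate (n - B) m) := by
  obtain ⟨C, rfl⟩ := Nat.exists_eq_add_of_le hB
  rw [Nat.add_sub_cancel_left, ← Multiset.nsmul_singleton]
  refine blocksW (fun _ => m) v _ hv fun u hu => ?_
  obtain ⟨w, hw⟩ : ∃ w : Fin (B + C) → ℕ, w = Fin.append u (fun _ : Fin C => m) := ⟨_, rfl⟩
  have e : ms u + C • {m} = ms w := by
    rw [hw]
    unfold ms
    rw [Fin.sum_univ_add]
    simp only [Fin.append_left, Fin.append_right, sum_const, card_univ, Fintype.card_fin]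
  rw [e]
  have hcost : ∑ i, Pool.Agent.Run7.h866.NU.cst m (w i) ≤ B := by
    rw [hw, Fin.sum_univ_add]
    simp only [Fin.append_left, Fin.append_right]
    have h1 : ∀ i, Pool.Agent.Run7.h866.NU.cst m (u i) ≤ 1 := by
      intro i
      unfold Pool.Agent.Run7.h866.NU.cst
      rcases hu i with h | h <;> rw [h] <;> simp
    have h2 : Pool.Agent.Run7.h866.NU.cst m m = 0 := by
      unfold Pool.Agent.Run7.h866.NU.cst
      simp
    rw [h2, sum_const_zero, add_zero]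
    calc ∑ i, Pool.Agent.Run7.h866.NU.cst m (u i) ≤ ∑ _i : Fin B, 1 := sum_le_sum fun i _ => h1 i
      _ = B := by simp
  have hclose : Pool.Agent.Run7.h866.NU.CloseTo m w := by
    refine ⟨hn, hm, ?_, ?_⟩
    · intro i
      rw [hw]
      refine Fin.addCases (fun i => ?_) (fun i => ?_) i
      · rw [Fin.append_left]
        rcases hu i with h | h <;> omega
      · rw [Fin.append_right]
        omega
    · rw [cc_eq]
      have h3 : ((∑ i, Pool.Agent.Run7.h866.NU.cst m (w i) : ℕ) : ℝ) ≤ B := by exact_mod_cast hcost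
      rcases hc with hc | hc
      · left; linarith
      · right; linarith
  obtain ⟨F, hF, hF'⟩ := Pool.Agent.Run7.h866.NU.closeTo_exp hclose
  exact NS_of_expDim ⟨F, hF, fun P hP => hF' P hP d⟩

/-- the number of conditions -/
def cnd (v : Multiset ℕ) : ℕ := (v.map fun a => (a + 1).choose 2).sum

/-- `v` may be substituted for a point of multiplicity `D`, for a notion `G` of non-speciality -/
def CritG (G : ℕ → Multiset ℕ → Prop) (D : ℕ) (v : Multiset ℕ) : Prop :=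
  1 ≤ D ∧ (D + 1).choose 2 ≤ cnd v ∧ cnd v ≤ (D + 2).choose 2 ∧ G (D - 1) v ∧ G D v

theorem CritG_iff {G : ℕ → Multiset ℕ → Prop} (hG : ∀ d v, G d v ↔ NS d v) {D : ℕ}
    {v : Multiset ℕ} : CritG G D v ↔ Crit D v := by
  unfold CritG Crit
  rw [hG, hG]
  rfl

/-- the theorem, for a notion `G` of non-speciality in one degree and a notion `A` for all degrees -/
def Master (G : ℕ → Multiset ℕ → Prop) (A : Multiset ℕ → Prop) : Prop :=
  (∀ (n : ℕ) (D : Fin n → ℕ) (v : Fin n → Multiset ℕ) (W : Multiset ℕ),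
    (∀ i, CritG G (D i) (v i)) →
    (∀ d : ℕ, (∀ u : Fin n → ℕ, (∀ i, u i = D i ∨ u i = D i + 1) → G d (mu u + W)) →
      G d (∑ i, v i + W)) ∧
    ((W = 0 ∧ Num n ∧ ∀ i j, D i = D j) ∨
      (∃ N m : ℕ, 37 ≤ N ∧ n ≤ N ∧ N + 6 ≤ 2 * m ∧ (∀ i, D i = m) ∧
        W = Multiset.replicate (N - n) m ∧
        ((n : ℝ) + (spare N : ℝ) / 2 + 9 / 8 < 7 * √(N : ℝ) / 6 ∨
          (n : ℝ) + spare N + 2 * √(N : ℝ) / 3 + 23 / 8 ≤ (N : ℝ) / 4)) →
      A (∑ i, v i + W))) ∧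
  (∀ N m D : ℕ, 1 ≤ m → (N = 1 ∨ N = 21 ∨ 37 ≤ N ∨ Num N) → 1 ≤ D →
    (D + 1).choose 2 ≤ N * (m + 1).choose 2 → N * (m + 1).choose 2 ≤ (D + 2).choose 2 →
    CritG G D (Multiset.replicate N m))

theorem cnd_replicate (N m : ℕ) : cnd (Multiset.replicate N m) = N * (m + 1).choose 2 := by
  unfold cnd
  rw [Multiset.map_replicate, Multiset.sum_replicate, smul_eq_mul]

theorem crit_uniform {N m D : ℕ} (hm : 1 ≤ m) (hN : N = 1 ∨ N = 21 ∨ 37 ≤ N ∨ Num N) (hD : 1 ≤ D)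
    (h1 : (D + 1).choose 2 ≤ N * (m + 1).choose 2) (h2 : N * (m + 1).choose 2 ≤ (D + 2).choose 2) :
    Crit D (Multiset.replicate N m) := by
  rw [← cnd_replicate] at h1 h2
  exact ⟨hD, h1, h2, NS_uniform hm hN, NS_uniform hm hN⟩

/-- the composition theorem, all degrees -/
theorem composition {n : ℕ} (D : Fin n → ℕ) (v : Fin n → Multiset ℕ) (W : Multiset ℕ)
    (hv : ∀ i, Crit (D i) (v i))
    (h : (W = 0 ∧ Num n ∧ ∀ i j, D i = D j) ∨
      (∃ N m : ℕ, 37 ≤ N ∧ n ≤ N ∧ N + 6 ≤ 2 * m ∧ (∀ i, D i = m) ∧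
        W = Multiset.replicate (N - n) m ∧
        ((n : ℝ) + (spare N : ℝ) / 2 + 9 / 8 < 7 * √(N : ℝ) / 6 ∨
          (n : ℝ) + spare N + 2 * √(N : ℝ) / 3 + 23 / 8 ≤ (N : ℝ) / 4))) (d : ℕ) :
    NS d (∑ i, v i + W) := by
  rcases h with ⟨rfl, ha, hD⟩ | ⟨N, m, hN, hn, hm, hD, rfl, hc⟩
  · rw [add_zero]
    have ha0 : 0 < n := by
      rcases ha with h | h | ⟨k, h | h | h⟩
      · omega
      · omega
      all_goals rw [h]; positivity
    exact union (D := D ⟨0, ha0⟩) ha v (fun i => by rw [hD ⟨0, ha0⟩ i]; exact hv i) d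
  · exact near_uniform_base hN hn hm v (fun i => by rw [← hD i]; exact hv i) hc

theorem master_of {G : ℕ → Multiset ℕ → Prop} {A : Multiset ℕ → Prop}
    (hG : ∀ d v, G d v ↔ NS d v) (hA : ∀ v, (∀ d, NS d v) → A v) : Master G A := by
  refine ⟨fun n D v W hv => ⟨fun d h => ?_, fun h => ?_⟩, fun N m D hm hN hD h1 h2 => ?_⟩
  · rw [hG]
    refine blocksW D v W (fun i => (CritG_iff hG).1 (hv i)) fun u hu => ?_
    have h1 := h u hu
    rw [hG, mu_eq] at h1
    exact h1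
  · exact hA _ fun d => composition D v W (fun i => (CritG_iff hG).1 (hv i)) h d
  · exact (CritG_iff hG).2 (crit_uniform hm hN hD h1 h2)

theorem master (K : Type) [Field K] [CharZero K] : Master (SM K) (SMAll K) :=
  master_of (fun _ _ => SM_iff) fun _ => SMAll_of

end Pool.Agent.Run7.h595.CM
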