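import Pool.Agent.Run7.h595.CM.Export
import Pool.Agent.Run7.h866.NU.Neg

/-! Curves with the multiplicities of a composition at very general points are not negative. -/

set_option autoImplicit false

namespace Pool.Agent.Run7.h595.CM

open Finset Pool.Agent.TH2.NU Pool.Agent.TH641.UM

theorem neg_real {s1 s2 a D d c : ℝ} (ha : 0 < a) (hD : 0 ≤ D) (hc : 3 ≤ c)
    (h1 : s2 + s1 ≤ d ^ 2 + 3 * d) (h2 : a * D ≤ s1) (h3 : s2 + s1 ≤ a * (D + 1) * (D + 2))
    (h4 : 3 * c * (c - 1) * D + 2 * c ^ 2 ≤ (a - c ^ 2) * D ^ 2) :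
    (1 - 3 / c) * s1 ≤ d ^ 2 - s2 := by
  have hc0 : 0 < c := by linarith
  obtain ⟨x, hx⟩ : ∃ x, x = s1 / c := ⟨_, rfl⟩
  have e : (1 - 3 / c) * s1 = s1 - 3 * x := by rw [hx]; ring
  rw [e]
  rcases le_total d x with hdx | hdx
  · linarith
  · have hy : a * D / c ≤ x := by
      rw [hx]
      exact div_le_div_of_nonneg_right h2 hc0.le
    obtain ⟨y, hy'⟩ : ∃ y, y = a * D / c := ⟨_, rfl⟩
    have hy0 : 0 ≤ y := by
      rw [hy']
      positivity
    rw [← hy'] at hy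
    have hcy : c * y = a * D := by
      rw [hy']
      field_simp
    have h5 : a * (D + 1) * (D + 2) ≤ y ^ 2 + 3 * y := by
      have h6 : c ^ 2 * (a * (D + 1) * (D + 2)) ≤ c ^ 2 * (y ^ 2 + 3 * y) := by
        have h7 : c ^ 2 * (y ^ 2 + 3 * y) = (a * D) ^ 2 + 3 * c * (a * D) := by
          rw [← hcy]
          ring
        rw [h7]
        nlinarith [mul_le_mul_of_nonneg_left h4 ha.le]
      exact le_of_mul_le_mul_left h6 (by positivity)
    have h6 : y ^ 2 ≤ x ^ 2 := pow_le_pow_left₀ hy0 hy 2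
    have h7 : x ^ 2 ≤ d ^ 2 := pow_le_pow_left₀ (hy0.trans hy) hdx 2
    linarith

theorem two_choose (n : ℕ) : 2 * (n + 1).choose 2 = (n + 1) * n := by
  induction n with
  | zero => rfl
  | succ n ih =>
    rw [show n + 1 + 1 = n + 2 from rfl, choose_step]
    nlinarith

theorem cnd_add (M N : Multiset ℕ) : cnd (M + N) = cnd M + cnd N := by
  unfold cnd
  rw [Multiset.map_add, Multiset.sum_add]

theorem cnd_sum {a : ℕ} (V : Fin a → Multiset ℕ) : cnd (∑ i, V i) = ∑ i, cnd (V i) := by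
  induction a with
  | zero => rfl
  | succ a ih => rw [Fin.sum_univ_succ, Fin.sum_univ_succ, cnd_add, ih]

theorem sum_sum {a : ℕ} (V : Fin a → Multiset ℕ) : (∑ i, V i).sum = ∑ i, (V i).sum := by
  induction a with
  | zero => rfl
  | succ a ih => rw [Fin.sum_univ_succ, Fin.sum_univ_succ, Multiset.sum_add, ih]

theorem cnd_le (M : Multiset ℕ) : 2 * cnd M ≤ (M.sum + 1) * M.sum := by
  induction M using Multiset.induction_on with
  | empty => simp [cnd]
  | cons a M ih =>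
    have e : cnd (a ::ₘ M) = (a + 1).choose 2 + cnd M := by
      unfold cnd
      rw [Multiset.map_cons, Multiset.sum_cons]
    have h := two_choose a
    rw [e, Multiset.sum_cons]
    nlinarith [Nat.zero_le (a * M.sum)]

theorem crit_sum {D : ℕ} {M : Multiset ℕ} (h : (D + 1).choose 2 ≤ cnd M) : D ≤ M.sum := by
  by_contra hlt
  push Not at hlt
  have h1 := cnd_le M
  have h2 := two_choose D
  have h3 : (M.sum + 1) * M.sum ≤ D * D := Nat.mul_le_mul hlt hlt.le
  have h4 : 0 < D := by omega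
  nlinarith

theorem cnd_two (M : Multiset ℕ) :
    2 * (cnd M : ℝ) = (M.map fun a : ℕ => (a : ℝ) ^ 2).sum + (M.map fun a : ℕ => (a : ℝ)).sum := by
  induction M using Multiset.induction_on with
  | empty => simp [cnd]
  | cons a M ih =>
    have e : cnd (a ::ₘ M) = (a + 1).choose 2 + cnd M := by
      unfold cnd
      rw [Multiset.map_cons, Multiset.sum_cons]
    have h : 2 * (((a + 1).choose 2 : ℕ) : ℝ) = (a + 1) * a := by
      have h := two_choose a
      exact_mod_cast h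
    rw [e, Multiset.map_cons, Multiset.map_cons, Multiset.sum_cons, Multiset.sum_cons]
    push_cast
    linarith

/-- **Curves with the multiplicities of a union of `a` systems of the critical degree `D`.** -/
theorem comp_neg {a D n d : ℕ} {c : ℝ} (hc : 3 ≤ c)
    (h4 : 3 * c * (c - 1) * D + 2 * c ^ 2 ≤ ((a : ℝ) - c ^ 2) * (D : ℝ) ^ 2)
    {V : Fin a → Multiset ℕ}
    (hV : ∀ i, (D + 1).choose 2 ≤ cnd (V i) ∧ cnd (V i) ≤ (D + 2).choose 2)
    {w : Fin n → ℕ} (hw : mu w = ∑ i, V i) (hN : NS d (ms w)) {P : Fin n → Fin 2 → ℂ}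
    (hP : AlgebraicIndependent ℚ (fun ij : Fin n × Fin 2 => P ij.1 ij.2))
    {F : MvPolynomial (Fin 3) ℂ} (hFd : F.IsHomogeneous d) (hF0 : F ≠ 0)
    (hF : ∀ i, F ∈ (Ideal.span ({MvPolynomial.X 0 - MvPolynomial.C (P i 0) * MvPolynomial.X 2,
        MvPolynomial.X 1 - MvPolynomial.C (P i 1) * MvPolynomial.X 2} :
        Set (MvPolynomial (Fin 3) ℂ))) ^ (w i)) :
    (1 - 3 / c) * ∑ i, (w i : ℝ) ≤ (d : ℝ) ^ 2 - ∑ i, (w i : ℝ) ^ 2 := by
  have ha : 0 < a := by
    rcases Nat.eq_zero_or_pos a with h | h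
    · exfalso
      rw [h] at h4
      have h1 : 0 ≤ 3 * c * (c - 1) * (D : ℝ) := by
        refine mul_nonneg (mul_nonneg ?_ ?_) (Nat.cast_nonneg _) <;> linarith
      push_cast at h4
      nlinarith [sq_nonneg (c * (D : ℝ))]
    · exact h
  obtain ⟨G, hG, hG'⟩ := hN.expDim
  have hG2 : MvPolynomial.aeval (fun ij : Fin n × Fin 2 => P ij.1 ij.2) G ≠ (0 : ℂ) := by
    intro h0
    exact hG ((algebraicIndependent_iff.1 hP) G h0)
  have h3 := Pool.Agent.Run7.h866.NU.count_of_form (hG' P hG2) hFd hF0 hF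
  have e0 : ∑ i, (w i + 1).choose 2 = cnd (mu w) := by
    unfold mu cnd
    rw [Multiset.map_map]
    rfl
  have e1 : (Multiset.map (fun a : ℕ => (a : ℝ)) (mu w)).sum = ∑ i, (w i : ℝ) := by
    unfold mu
    rw [Multiset.map_map]
    rfl
  have e2 : (Multiset.map (fun a : ℕ => (a : ℝ) ^ 2) (mu w)).sum = ∑ i, (w i : ℝ) ^ 2 := by
    unfold mu
    rw [Multiset.map_map]
    rfl
  have e3 : (mu w).sum = ∑ i, w i := by
    unfold mu
    rfl
  have e4 := cnd_two (mu w)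
  rw [e1, e2] at e4
  rw [e0] at h3
  have h5 := two_choose (d + 1)
  have h6 : 2 * cnd (mu w) ≤ d ^ 2 + 3 * d := by
    have : d + 1 + 1 = d + 2 := rfl
    rw [this] at h5
    nlinarith
  have h7 : 2 * (cnd (mu w) : ℝ) ≤ (d : ℝ) ^ 2 + 3 * d := by exact_mod_cast h6
  have h8 : a * D ≤ ∑ i, w i := by
    rw [← e3, hw, sum_sum]
    calc a * D = ∑ _i : Fin a, D := by simp
      _ ≤ _ := sum_le_sum fun i _ => crit_sum (hV i).1
  have h9 : 2 * cnd (mu w) ≤ a * (D + 1) * (D + 2) := by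
    rw [hw, cnd_sum]
    have h10 : ∑ i, cnd (V i) ≤ ∑ _i : Fin a, (D + 2).choose 2 := sum_le_sum fun i _ => (hV i).2
    rw [sum_const, card_univ, Fintype.card_fin, smul_eq_mul] at h10
    have h11 := two_choose (D + 1)
    have : D + 1 + 1 = D + 2 := rfl
    rw [this] at h11
    calc 2 * ∑ i, cnd (V i) ≤ a * (2 * (D + 2).choose 2) := by linarith
      _ = a * (D + 1) * (D + 2) := by rw [h11]; ring
  have h8' : (a : ℝ) * D ≤ ∑ i, (w i : ℝ) := by exact_mod_cast h8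
  have h9' : 2 * (cnd (mu w) : ℝ) ≤ (a : ℝ) * (D + 1) * (D + 2) := by exact_mod_cast h9
  exact neg_real (by exact_mod_cast ha) (Nat.cast_nonneg _) hc (by linarith) h8' (by linarith) h4

/-- a union of `a` systems with numbers of conditions between those of the multiplicities `D` and
`D + 1`, non-special in every degree -/
def Comp (a D : ℕ) (v : Multiset ℕ) : Prop :=
  ∃ V : Fin a → Multiset ℕ, (∀ i, (D + 1).choose 2 ≤ cnd (V i) ∧ cnd (V i) ≤ (D + 2).choose 2) ∧
    v = ∑ i, V i ∧ ∀ d, NS d v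

theorem comp_of_union {a D : ℕ} (ha : Num a) (V : Fin a → Multiset ℕ) (hV : ∀ i, Crit D (V i)) :
    Comp a D (∑ i, V i) :=
  ⟨V, fun i => ⟨(hV i).2.1, (hV i).2.2.1⟩, rfl, fun d => union ha V hV d⟩

theorem comp_of_base {n B m : ℕ} (hn : 37 ≤ n) (hB : B ≤ n) (hm : n + 6 ≤ 2 * m)
    (V : Fin B → Multiset ℕ) (hV : ∀ i, Crit m (V i))
    (hc : (B : ℝ) + (spare n : ℝ) / 2 + 9 / 8 < 7 * √(n : ℝ) / 6 ∨
      (B : ℝ) + spare n + 2 * √(n : ℝ) / 3 + 23 / 8 ≤ (n : ℝ) / 4) :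
    Comp n m (∑ i, V i + Multiset.replicate (n - B) m) := by
  have h := fun d => near_uniform_base (d := d) hn hB hm V hV hc
  obtain ⟨C, rfl⟩ := Nat.exists_eq_add_of_le hB
  rw [Nat.add_sub_cancel_left] at h ⊢
  refine ⟨Fin.append V (fun _ : Fin C => {m}), fun i => ?_, ?_, h⟩
  · refine Fin.addCases (fun i => ?_) (fun i => ?_) i
    · rw [Fin.append_left]
      exact ⟨(hV i).2.1, (hV i).2.2.1⟩
    · rw [Fin.append_right]
      have e : cnd {m} = (m + 1).choose 2 := by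
        unfold cnd
        rw [Multiset.map_singleton, Multiset.sum_singleton]
      have h1 := choose_step m
      rw [e]
      omega
  · rw [Fin.sum_univ_add]
    simp only [Fin.append_left, Fin.append_right, sum_const, card_univ, Fintype.card_fin,
      Multiset.nsmul_singleton]

/-- **Curves with the multiplicities of a composition.** -/
theorem comp_curve {a D n d : ℕ} {c : ℝ} (hc : 3 ≤ c)
    (h4 : 3 * c * (c - 1) * D + 2 * c ^ 2 ≤ ((a : ℝ) - c ^ 2) * (D : ℝ) ^ 2)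
    {w : Fin n → ℕ} (hw : Comp a D (mu w)) {P : Fin n → Fin 2 → ℂ}
    (hP : AlgebraicIndependent ℚ (fun ij : Fin n × Fin 2 => P ij.1 ij.2))
    {F : MvPolynomial (Fin 3) ℂ} (hFd : F.IsHomogeneous d) (hF0 : F ≠ 0)
    (hF : ∀ i, F ∈ (Ideal.span ({MvPolynomial.X 0 - MvPolynomial.C (P i 0) * MvPolynomial.X 2,
        MvPolynomial.X 1 - MvPolynomial.C (P i 1) * MvPolynomial.X 2} :
        Set (MvPolynomial (Fin 3) ℂ))) ^ (w i)) :
    (1 - 3 / c) * ∑ i, (w i : ℝ) ≤ (d : ℝ) ^ 2 - ∑ i, (w i : ℝ) ^ 2 := by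
  obtain ⟨V, hV, h1, h2⟩ := hw
  refine comp_neg hc h4 hV h1 ?_ hP hFd hF0 hF
  rw [← mu_eq]
  exact h2 d

end Pool.Agent.Run7.h595.CM
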