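import Pool.Agent.Run7.h595.CM.Core
import Pool.Agent.TH759.EV.Pow
import Pool.Agent.TH545.SD.Conv
import Pool.Agent.TH2.NU.Final
import Pool.Agent.Run7.h866.NU.Near

/-! Composition: unions of systems of the same critical degree. -/

set_option autoImplicit false

namespace Pool.Agent.Run7.h595.CM

open Finset Pool.Agent.TH176.Nag Pool.Agent.TH603.Sur Pool.Agent.TH641.UM Pool.Agent.TH2.NU
open Pool.Agent.H932R3 (ExpDim)

theorem NS_of_fam {ι : Type} [Fintype ι] {w : ι → ℕ} {d : ℕ}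
    (h : ((d + 2).choose 2 ≤ cond w → Emp w (TZ d)) ∧ (cond w ≤ (d + 2).choose 2 → Sur w (TZ d))) :
    NS d (ms w) := by
  rw [cond_condM] at h
  exact ⟨fun h1 => (EmpM_iff rfl _).2 (h.1 h1), fun h1 => (SurM_iff rfl _).2 (h.2 h1)⟩

theorem NS.fam {ι : Type} [Fintype ι] {w : ι → ℕ} {d : ℕ} (h : NS d (ms w)) :
    ((d + 2).choose 2 ≤ cond w → Emp w (TZ d)) ∧ (cond w ≤ (d + 2).choose 2 → Sur w (TZ d)) := by
  rw [cond_condM]
  exact ⟨fun h1 => (EmpM_iff rfl _).1 (h.1 h1), fun h1 => (SurM_iff rfl _).1 (h.2 h1)⟩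

theorem NS_of_expDim {n : ℕ} {w : Fin n → ℕ} {d : ℕ}
    (h : ∃ F : MvPolynomial (Fin n × Fin 2) ℚ, F ≠ 0 ∧ ∀ (P : Fin n → Fin 2 → ℚ),
      MvPolynomial.aeval (fun ij : Fin n × Fin 2 => P ij.1 ij.2) F ≠ 0 → ExpDim ℚ w P d) :
    NS d (ms w) := NS_of_fam (Pool.Agent.TH545.SD.emp_sur_of_expDim h)

/-- and back to general points -/
theorem NS.expDim {n : ℕ} {w : Fin n → ℕ} {d : ℕ} (h : NS d (ms w)) :
    ∃ F : MvPolynomial (Fin n × Fin 2) ℚ, F ≠ 0 ∧ ∀ {L : Type} [Field L] [CharZero L]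
      (P : Fin n → Fin 2 → L), MvPolynomial.aeval (fun ij : Fin n × Fin 2 => P ij.1 ij.2) F ≠ 0 →
      ExpDim L w P d := by
  obtain ⟨h1, h2⟩ := h.fam
  rcases le_total ((d + 2).choose 2) (cond w) with hd | hd
  · obtain ⟨F, hF, hF'⟩ := full_open (h1 hd)
    exact ⟨F, hF, fun P hP => hF' P hP d le_rfl⟩
  · obtain ⟨F, hF, hF'⟩ := indep_open (h2 hd)
    exact ⟨F, hF, fun P hP => hF' P hP d le_rfl⟩

/-- all degrees at once -/
theorem expDim_all {n : ℕ} {w : Fin n → ℕ} (h : ∀ d, NS d (ms w)) :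
    ∃ F : MvPolynomial (Fin n × Fin 2) ℚ, F ≠ 0 ∧ ∀ {L : Type} [Field L] [CharZero L]
      (P : Fin n → Fin 2 → L), MvPolynomial.aeval (fun ij : Fin n × Fin 2 => P ij.1 ij.2) F ≠ 0 →
      ∀ d, ExpDim L w P d :=
  expDim_of_sign (fun d hd => (h d).fam.1 hd) (fun d hd => (h d).fam.2 hd)

/-- the numbers of blocks -/
def Num (a : ℕ) : Prop :=
  200 ≤ a ∨ (144 ≤ a ∧ 4 ∣ a) ∨ ∃ k, a = 4 ^ (k + 1) ∨ a = 9 * 4 ^ k ∨ a = 13 * 4 ^ k

/-- near-uniform vectors -/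
theorem NS_near {a D d : ℕ} (ha : Num a) (hD : 1 ≤ D) {u : Fin a → ℕ}
    (hu : ∀ i, u i = D ∨ u i = D + 1) : NS d (ms u) := by
  rcases ha with h | ⟨h, N, rfl⟩ | ⟨k, hk⟩
  · obtain ⟨F, hF, hF'⟩ := Pool.Agent.Run7.h866.NU.near_all h hD hu (L := ℚ)
    exact NS_of_expDim ⟨F, hF, fun P hP => hF' P hP d⟩
  · obtain ⟨F, hF, hF'⟩ := Pool.Agent.TH2.NU.near4 (by omega) hD hu (L := ℚ)
    exact NS_of_expDim ⟨F, hF, fun P hP => hF' P hP d⟩
  · have hN : Pool.Agent.TH759.EV.NU a := by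
      rcases hk with rfl | rfl | rfl
      · have := Pool.Agent.TH759.EV.NU_pow Pool.Agent.TH759.EV.NU_four k
        rwa [show 4 * 4 ^ k = 4 ^ (k + 1) by ring] at this
      · exact Pool.Agent.TH759.EV.NU_pow Pool.Agent.TH759.EV.NU_nine k
      · exact Pool.Agent.TH759.EV.NU_pow Pool.Agent.TH759.EV.NU_thirteen k
    exact NS_of_fam (Pool.Agent.TH759.EV.Ex_fam hN hD (Fintype.card_fin _) hu d)

/-- **Composition**: the union of `a` systems of the same critical degree -/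
theorem union {a D : ℕ} (ha : Num a) (v : Fin a → Multiset ℕ) (hv : ∀ i, Crit D (v i)) (d : ℕ) :
    NS d (∑ i, v i) := by
  have ha0 : 0 < a := by
    rcases ha with h | h | ⟨k, h | h | h⟩
    · omega
    · omega
    all_goals rw [h]; positivity
  exact blocks (fun _ => D) v hv fun u hu => NS_near ha (hv ⟨0, ha0⟩).1 hu

end Pool.Agent.Run7.h595.CM
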