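import Pool.Agent.TH2.NU.Multi
import Pool.Agent.TH105.N13.All

/-! Substitution of a system into a point: if `M` is non-special in the degrees `D - 1` and `D` and
its number of conditions is between those of the multiplicities `D` and `D + 1`, then a point may be
replaced by `M`. -/

set_option autoImplicit false

namespace Pool.Agent.Run7.h595.CM

open Finset Pool.Agent.TH176.Nag Pool.Agent.TH603.Sur Pool.Agent.TH641.UM Pool.Agent.TH2.NU

/-- the expected dimension in degree `d` at general points with the multiplicities `M` -/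
def NS (d : ℕ) (M : Multiset ℕ) : Prop :=
  ((d + 2).choose 2 ≤ Pool.Agent.TH2.NU.condM M → EmpM M (TZ d)) ∧ (Pool.Agent.TH2.NU.condM M ≤ (d + 2).choose 2 → SurM M (TZ d))

/-- enough simple points are added -/
theorem NS.ones {d : ℕ} {M : Multiset ℕ} (h : NS d M) (s : ℕ) (hs : (d + 2).choose 2 ≤ Pool.Agent.TH2.NU.condM M + s) :
    EmpM (M + s • {1}) (TZ d) := by
  rcases le_total ((d + 2).choose 2) (Pool.Agent.TH2.NU.condM M) with h1 | h1
  · exact (h.1 h1).mono (Multiset.le_add_right _ _)
  · have h2 : Sur (fun i : Fin M.toList.length => M.toList.get i) (TZ d) := h.2 h1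
    have h3 := Emp_ones (p := s) h2 (by rw [cond_condM, ms_toList]; exact hs)
    exact (EmpM_iff (by rw [ms_sum, ms_toList, ms_fin]) _).2 h3

theorem SurM_of_ones' {d s : ℕ} {M : Multiset ℕ} (h : EmpM (M + s • {1}) (TZ d))
    (hs : Pool.Agent.TH2.NU.condM M + s ≤ (d + 2).choose 2) : SurM M (TZ d) := by
  have h1 : Emp (Sum.elim (fun i : Fin M.toList.length => M.toList.get i) (fun _ : Fin s => 1))
      (TZ d) := (EmpM_iff (by rw [ms_sum, ms_toList, ms_fin]) _).1 h
  exact Sur_of_ones h1 (by rw [cond_condM, ms_toList]; exact hs)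

theorem choose_step (D : ℕ) : (D + 2).choose 2 = (D + 1).choose 2 + (D + 1) := by
  have h : (D + 1 + 1).choose 2 = (D + 1) + (D + 1).choose 2 := by
    have h1 := Nat.choose_succ_succ' (D + 1) 1
    rw [Nat.choose_one_right] at h1
    exact h1
  have e : D + 2 = D + 1 + 1 := rfl
  rw [e, h]
  omega

/-- the system `M` may be substituted for a point of multiplicity `D` -/
def Crit (D : ℕ) (M : Multiset ℕ) : Prop :=
  1 ≤ D ∧ (D + 1).choose 2 ≤ Pool.Agent.TH2.NU.condM M ∧ Pool.Agent.TH2.NU.condM M ≤ (D + 2).choose 2 ∧ NS (D - 1) M ∧ NS D M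

/-- **Substitution** -/
theorem block {d D : ℕ} {M W : Multiset ℕ} (hM : Crit D M) (h1 : NS d ({D} + W))
    (h2 : NS d ({D + 1} + W)) : NS d (M + W) := by
  obtain ⟨hD, c1, c2, g1, g2⟩ := hM
  have hst := choose_step D
  have key : ∀ s, (d + 2).choose 2 ≤ Pool.Agent.TH2.NU.condM M + Pool.Agent.TH2.NU.condM W + s →
      EmpM (M + (W + s • {1})) (TZ d) := by
    intro s hs
    refine match_M Pool.Agent.TH105.N13.matchE (D := D) (p := (D + 2).choose 2 - Pool.Agent.TH2.NU.condM M)
      (q := Pool.Agent.TH2.NU.condM M - (D + 1).choose 2) hD (by omega) ?_ ?_ ?_ ?_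
    · exact g2.ones _ (by omega)
    · refine g1.1 ?_
      have e : D - 1 + 2 = D + 1 := by omega
      rw [e]
      exact c1
    · have h3 := h1.ones (s + (Pool.Agent.TH2.NU.condM M - (D + 1).choose 2)) (by
        rw [condM_add, condM_single]
        omega)
      refine h3.mono (le_of_eq ?_)
      rw [add_smul]
      abel
    · have h3 := h2.ones s (by
        rw [condM_add, condM_single]
        have e : D + 1 + 1 = D + 2 := rfl
        rw [e]
        omega)
      refine h3.mono (le_of_eq ?_)
      abel
  refine ⟨fun hle => ?_, fun hle => ?_⟩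
  · rw [condM_add] at hle
    have h3 := key 0 (by omega)
    rw [zero_smul, add_zero] at h3
    exact h3
  · refine SurM_of_ones' (s := (d + 2).choose 2 - Pool.Agent.TH2.NU.condM (M + W)) ?_ (by omega)
    rw [add_assoc]
    refine key _ ?_
    rw [condM_add] at hle ⊢
    omega

/-- **Composition** -/
theorem blocksW {a d : ℕ} (D : Fin a → ℕ) (v : Fin a → Multiset ℕ) (W : Multiset ℕ)
    (hv : ∀ i, Crit (D i) (v i))
    (h : ∀ u : Fin a → ℕ, (∀ i, u i = D i ∨ u i = D i + 1) → NS d (ms u + W)) :
    NS d (∑ i, v i + W) := by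
  classical
  have key : ∀ s : Finset (Fin a), ∀ u : Fin a → ℕ, (∀ i, u i = D i ∨ u i = D i + 1) →
      NS d ((∑ i, if i ∈ s then v i else {u i}) + W) := by
    intro s
    induction s using Finset.induction_on with
    | empty =>
      intro u hu
      have h1 := h u hu
      simpa [ms] using h1
    | insert j s hj ih =>
      intro u hu
      have e1 : (∑ i, if i ∈ insert j s then v i else {u i}) =
          v j + ∑ i ∈ univ.erase j, if i ∈ s then v i else {u i} := by
        rw [← Finset.add_sum_erase univ _ (mem_univ j)]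
        rw [if_pos (mem_insert_self j s)]
        congr 1
        refine sum_congr rfl fun i hi => ?_
        have hij : i ≠ j := (mem_erase.1 hi).1
        simp [hij]
      have e2 : ∀ x : ℕ, (∑ i, if i ∈ s then v i else ({Function.update u j x i} : Multiset ℕ)) =
          {x} + ∑ i ∈ univ.erase j, if i ∈ s then v i else {u i} := by
        intro x
        rw [← Finset.add_sum_erase univ _ (mem_univ j)]
        rw [if_neg hj, Function.update_self]
        congr 1
        refine sum_congr rfl fun i hi => ?_
        have hij : i ≠ j := (mem_erase.1 hi).1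
        rw [Function.update_of_ne hij]
      have hup : ∀ x : ℕ, (x = D j ∨ x = D j + 1) → ∀ i, Function.update u j x i = D i ∨
          Function.update u j x i = D i + 1 := by
        intro x hx i
        rcases eq_or_ne i j with rfl | hij
        · rw [Function.update_self]; exact hx
        · rw [Function.update_of_ne hij]; exact hu i
      rw [e1, add_assoc]
      refine block (hv j) ?_ ?_
      · have h3 := ih (Function.update u j (D j)) (hup _ (Or.inl rfl))
        rw [e2, add_assoc] at h3
        exact h3
      · have h3 := ih (Function.update u j (D j + 1)) (hup _ (Or.inr rfl))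
        rw [e2, add_assoc] at h3
        exact h3
  have h1 := key univ D fun i => Or.inl rfl
  simpa using h1

theorem blocks {a d : ℕ} (D : Fin a → ℕ) (v : Fin a → Multiset ℕ) (hv : ∀ i, Crit (D i) (v i))
    (h : ∀ u : Fin a → ℕ, (∀ i, u i = D i ∨ u i = D i + 1) → NS d (ms u)) :
    NS d (∑ i, v i) := by
  have h1 := blocksW D v 0 hv (fun u hu => by rw [add_zero]; exact h u hu)
  rwa [add_zero] at h1

end Pool.Agent.Run7.h595.CM
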